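import Mathlib

/-!
# MP_4423d6_an: the weak form (Q1) for the critical couplings of the Winfree model fails

Take `N = 2` and `Ω = (1, 1/4)`. Informally: for `κ ∈ [4/5, 3/2]` equilibria exist, but there is
also an unstable solution along which the second phase stays between `π/2` and `π` while the first
one rotates for ever. For each single `κ` the initial phases of the solutions which behave in this
way form a null set, but this null set moves with `κ`, and together these sets cover a nonempty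
open set of initial phases `Θ₀`. Thus for each `Θ₀` in the open set the solution does not converge
for some `κ ∈ [4/5, 3/2]` (which depends on `Θ₀`), so that `κ_pc (Θ₀, Ω) ≥ 4/5`, while
`κ_c (Ω) ≤ 7/10`.

The value of `κ` is found by shooting: for `κ = 4/5` the second phase leaves the strip
`π/2 ≤ θ 1 ≤ π` at the top, for `κ = 3/2` it leaves it at the bottom, and in both cases it never
returns to the interior of the strip. The two sets of couplings with these properties are open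
(Gronwall) and disjoint, so for some `κ` the solution stays in the strip, where there is no
equilibrium to which it could converge.
-/

set_option autoImplicit false

open Filter Topology Set MeasureTheory

namespace Pool.Agent.Results.MP_4423d6_an.WeakFormFails

/-- The right-hand side `ω_i - (κ / N) ∑_j (1 + cos θ_j) sin θ_i` of the Winfree model. -/
noncomputable def field (N : ℕ) (Ω : Fin N → ℝ) (κ : ℝ) (θ : Fin N → ℝ) (i : Fin N) : ℝ :=
  Ω i - κ / N * ∑ j, (1 + Real.cos (θ j)) * Real.sin (θ i)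

/-- `θ` solves the Winfree model on `[0, ∞)` with the initial phases `Θ₀` (at `t = 0` the derivative
is the one from the right). -/
def IsSolution (N : ℕ) (Ω : Fin N → ℝ) (κ : ℝ) (Θ₀ : Fin N → ℝ) (θ : ℝ → Fin N → ℝ) : Prop :=
  θ 0 = Θ₀ ∧ ∀ t, 0 ≤ t → HasDerivWithinAt θ (field N Ω κ (θ t)) (Ici 0) t

/-- The solution with the initial phases `Θ₀` converges. -/
def Converges (N : ℕ) (Ω : Fin N → ℝ) (κ : ℝ) (Θ₀ : Fin N → ℝ) : Prop :=
  ∃ θ : ℝ → Fin N → ℝ, IsSolution N Ω κ Θ₀ θ ∧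
    ∀ i, ∃ L : ℝ, Tendsto (fun t => θ t i) atTop (𝓝 L)

/-- There is an equilibrium. -/
def HasEquilibrium (N : ℕ) (Ω : Fin N → ℝ) (κ : ℝ) : Prop :=
  ∃ θ : Fin N → ℝ, ∀ i, field N Ω κ θ i = 0

/-- The critical coupling strength `κ_c (Ω)`, an infimum in the extended reals. -/
noncomputable def kappaC (N : ℕ) (Ω : Fin N → ℝ) : EReal :=
  sInf ((fun k : ℝ => (k : EReal)) '' {k : ℝ | 0 < k ∧ ∀ κ : ℝ, k < κ → HasEquilibrium N Ω κ})

/-- The pathwise critical coupling strength `κ_pc (Θ₀, Ω)`, an infimum in the extended reals. -/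
noncomputable def kappaPC (N : ℕ) (Θ₀ Ω : Fin N → ℝ) : EReal :=
  sInf ((fun k : ℝ => (k : EReal)) '' {k : ℝ | 0 < k ∧ ∀ κ : ℝ, k < κ → Converges N Ω κ Θ₀})

/-! ### General lemmas -/

/-- If at each time when all the functions are nonpositive, those which vanish have a negative
derivative, then they stay nonpositive. -/
lemma stay {ι : Type} [Finite ι] (g : ι → ℝ → ℝ) (a : ℝ) (hc : ∀ k, ContinuousOn (g k) (Ici a))
    (h0 : ∀ k, g k a < 0)
    (hd : ∀ t, a < t → (∀ j, g j t ≤ 0) → ∀ k, g k t = 0 → ∃ d < 0, HasDerivAt (g k) d t) :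
    ∀ t, a ≤ t → ∀ k, g k t ≤ 0 := by
  intro b hb
  have key : Icc a b ⊆ {t | ∀ k, g k t ≤ 0} := by
    apply IsClosed.Icc_subset_of_forall_exists_gt
    · have e : {t | ∀ k, g k t ≤ 0} ∩ Icc a b =
          Icc a b ∩ ⋂ k, (Icc a b ∩ (g k) ⁻¹' Iic 0) := by
        ext t
        simp only [mem_inter_iff, mem_ofPred_eq, mem_iInter, mem_preimage, mem_Iic]
        constructor
        · rintro ⟨h1, h2⟩
          exact ⟨h2, fun k => ⟨h2, h1 k⟩⟩
        · rintro ⟨h1, h2⟩
          exact ⟨fun k => (h2 k).2, h1⟩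
      rw [e]
      refine isClosed_Icc.inter (isClosed_iInter fun k => ?_)
      exact ((hc k).mono Icc_subset_Ici_self).preimage_isClosed_of_isClosed isClosed_Icc isClosed_Iic
    · exact fun k => (h0 k).le
    · rintro x ⟨hx, hax, hxb⟩ y hy
      have hev : ∀ k, ∀ᶠ t in 𝓝[>] x, g k t ≤ 0 := by
        intro k
        rcases lt_or_eq_of_le (hx k) with h | h
        · have h1 : Tendsto (g k) (𝓝[>] x) (𝓝 (g k x)) :=
            ((hc k x hax).mono (Ioi_subset_Ici hax)).tendsto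
          exact (h1.eventually (eventually_lt_nhds h)).mono fun t ht => ht.le
        · have hax' : a < x := lt_of_le_of_ne hax (by rintro rfl; exact absurd h (h0 k).ne)
          obtain ⟨d, hd0, hdd⟩ := hd x hax' hx k h
          have h1 := hdd.hasDerivWithinAt (s := Ioi x)
          have h2 := (hasDerivWithinAt_iff_tendsto_slope' (self_notMem_Ioi)).1 h1
          have h3 := h2.eventually (eventually_lt_nhds hd0)
          filter_upwards [h3, self_mem_nhdsWithin] with t ht htx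
          rw [slope_def_field, h] at ht
          have h4 : 0 < t - x := sub_pos.2 htx
          by_contra hcon
          push Not at hcon
          have : 0 ≤ (g k t - 0) / (t - x) := by positivity
          linarith
      have hall : ∀ᶠ t in 𝓝[>] x, ∀ k, g k t ≤ 0 := eventually_all.2 hev
      have hy' : ∀ᶠ t in 𝓝[>] x, t ∈ Ioc x y := Ioc_mem_nhdsGT hy
      obtain ⟨t, ht1, ht2⟩ := (hall.and hy').exists
      exact ⟨t, ht1, ht2⟩
  exact key ⟨hb, le_rfl⟩

/-! ### The example -/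

/-- The frequencies. -/
noncomputable def Om : Fin 2 → ℝ := ![1, 1 / 4]

/-- The mean field. -/
noncomputable def R (θ : Fin 2 → ℝ) : ℝ := (2 + Real.cos (θ 0) + Real.cos (θ 1)) / 2

lemma field0 (κ : ℝ) (θ : Fin 2 → ℝ) : field 2 Om κ θ 0 = 1 - κ * R θ * Real.sin (θ 0) := by
  simp only [field, Om, R, Fin.sum_univ_two, Matrix.cons_val_zero, Nat.cast_ofNat]
  ring

lemma field1 (κ : ℝ) (θ : Fin 2 → ℝ) : field 2 Om κ θ 1 = 1 / 4 - κ * R θ * Real.sin (θ 1) := by
  simp only [field, Om, R, Fin.sum_univ_two, Matrix.cons_val_one, Matrix.cons_val_fin_one,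
    Nat.cast_ofNat]
  ring

lemma R_nonneg (v : Fin 2 → ℝ) : 0 ≤ R v := by
  unfold R
  have := Real.neg_one_le_cos (v 0)
  have := Real.neg_one_le_cos (v 1)
  linarith

lemma R_le (v : Fin 2 → ℝ) : R v ≤ 2 := by
  unfold R
  have := Real.cos_le_one (v 0)
  have := Real.cos_le_one (v 1)
  linarith

lemma sin_lip (x y : ℝ) : |Real.sin x - Real.sin y| ≤ |x - y| := by
  have := Real.lipschitzWith_sin.dist_le_mul x y
  simpa [Real.dist_eq] using this

lemma cos_lip (x y : ℝ) : |Real.cos x - Real.cos y| ≤ |x - y| := by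
  have := Real.lipschitzWith_cos.dist_le_mul x y
  simpa [Real.dist_eq] using this

lemma RS_lip (v w : Fin 2 → ℝ) (i : Fin 2) :
    |R v * Real.sin (v i) - R w * Real.sin (w i)| ≤ 3 * dist v w := by
  have d0 : |v 0 - w 0| ≤ dist v w := by
    have := dist_le_pi_dist v w 0
    simpa [Real.dist_eq] using this
  have d1 : |v 1 - w 1| ≤ dist v w := by
    have := dist_le_pi_dist v w 1
    simpa [Real.dist_eq] using this
  have di : |v i - w i| ≤ dist v w := by
    have := dist_le_pi_dist v w i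
    simpa [Real.dist_eq] using this
  have e1 : |R v - R w| ≤ dist v w := by
    have h0 := (cos_lip (v 0) (w 0)).trans d0
    have h1 := (cos_lip (v 1) (w 1)).trans d1
    unfold R
    rw [abs_le] at *
    constructor <;> linarith [h0.1, h0.2, h1.1, h1.2]
  have e2 : |Real.sin (v i) - Real.sin (w i)| ≤ dist v w := (sin_lip _ _).trans di
  have e3 : R v * Real.sin (v i) - R w * Real.sin (w i) =
      (R v - R w) * Real.sin (v i) + R w * (Real.sin (v i) - Real.sin (w i)) := by ring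
  rw [e3]
  refine (abs_add_le _ _).trans ?_
  rw [abs_mul, abs_mul, abs_of_nonneg (R_nonneg w)]
  have e4 := Real.abs_sin_le_one (v i)
  have e5 := R_le w
  have e6 : (0 : ℝ) ≤ dist v w := dist_nonneg
  have e7 : |R v - R w| * |Real.sin (v i)| ≤ dist v w * 1 :=
    mul_le_mul e1 e4 (abs_nonneg _) e6
  have e8 : R w * |Real.sin (v i) - Real.sin (w i)| ≤ 2 * dist v w :=
    mul_le_mul e5 e2 (abs_nonneg _) (by norm_num)
  linarith

lemma field_eq (κ : ℝ) (v : Fin 2 → ℝ) (i : Fin 2) :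
    field 2 Om κ v i = Om i - κ * (R v * Real.sin (v i)) := by
  simp only [field, R, Fin.sum_univ_two, Nat.cast_ofNat]
  ring

lemma field_lip {κ : ℝ} (h0 : 0 ≤ κ) (h1 : κ ≤ 3 / 2) : LipschitzWith 5 (field 2 Om κ) := by
  refine LipschitzWith.of_dist_le_mul fun v w => ?_
  rw [dist_pi_le_iff (by positivity)]
  intro i
  rw [Real.dist_eq, field_eq, field_eq]
  have h2 := RS_lip v w i
  have h3 : Om i - κ * (R v * Real.sin (v i)) - (Om i - κ * (R w * Real.sin (w i))) =
    - (κ * (R v * Real.sin (v i) - R w * Real.sin (w i))) := by ring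
  rw [h3, abs_neg, abs_mul, abs_of_nonneg h0]
  have h4 : (0 : ℝ) ≤ dist v w := dist_nonneg
  have h5 : κ * |R v * Real.sin (v i) - R w * Real.sin (w i)| ≤ 3 / 2 * (3 * dist v w) :=
    mul_le_mul h1 h2 (abs_nonneg _) (by norm_num)
  have h6 : ((5 : NNReal) : ℝ) = 5 := rfl
  rw [h6]
  linarith

lemma field_near (κ κ' : ℝ) (v : Fin 2 → ℝ) :
    dist (field 2 Om κ v) (field 2 Om κ' v) ≤ 2 * |κ - κ'| := by
  rw [dist_pi_le_iff (by positivity)]
  intro i
  rw [Real.dist_eq, field_eq, field_eq]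
  have h3 : Om i - κ * (R v * Real.sin (v i)) - (Om i - κ' * (R v * Real.sin (v i))) =
    - ((κ - κ') * (R v * Real.sin (v i))) := by ring
  rw [h3, abs_neg, abs_mul, abs_mul, abs_of_nonneg (R_nonneg v)]
  have h1 := R_le v
  have h2 := Real.abs_sin_le_one (v i)
  have h4 : R v * |Real.sin (v i)| ≤ 2 * 1 := mul_le_mul h1 h2 (abs_nonneg _) (by norm_num)
  have h5 := abs_nonneg (κ - κ')
  nlinarith

lemma contk {Θ₀ : Fin 2 → ℝ} (θ : Icc (4 / 5 : ℝ) (3 / 2) → ℝ → Fin 2 → ℝ)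
    (h : ∀ κ : Icc (4 / 5 : ℝ) (3 / 2), IsSolution 2 Om κ Θ₀ (θ κ)) (t : ℝ) (ht : 0 ≤ t) :
    Continuous fun κ => θ κ t := by
  rw [continuous_iff_continuousAt]
  intro κ
  rw [ContinuousAt, tendsto_iff_dist_tendsto_zero]
  have hb : ∀ κ' : Icc (4 / 5 : ℝ) (3 / 2), dist (θ κ' t) (θ κ t) ≤
      gronwallBound 0 5 (2 * |(κ' : ℝ) - κ|) t := by
    intro κ'
    have := dist_le_of_approx_trajectories_ODE (v := fun _ => field 2 Om κ) (K := 5)
      (f := θ κ') (g := θ κ) (f' := fun s => field 2 Om κ' (θ κ' s))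
      (g' := fun s => field 2 Om κ (θ κ s)) (a := 0) (b := t) (εf := 2 * |(κ' : ℝ) - κ|) (εg := 0)
      (δ := 0)
      (fun _ => field_lip (by linarith [κ.2.1]) κ.2.2)
      (fun s hs => ((h κ').2 s hs.1).continuousWithinAt.mono Icc_subset_Ici_self)
      (fun s hs => ((h κ').2 s hs.1).mono (Ici_subset_Ici.2 hs.1))
      (fun s hs => field_near _ _ _)
      (fun s hs => ((h κ).2 s hs.1).continuousWithinAt.mono Icc_subset_Ici_self)
      (fun s hs => ((h κ).2 s hs.1).mono (Ici_subset_Ici.2 hs.1))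
      (fun s hs => by simp)
      (by rw [(h κ').1, (h κ).1]; simp) t ⟨ht, le_rfl⟩
    simpa using this
  have hc : Tendsto (fun κ' : Icc (4 / 5 : ℝ) (3 / 2) =>
      gronwallBound 0 5 (2 * |(κ' : ℝ) - κ|) t) (𝓝 κ) (𝓝 0) := by
    have h1 : Continuous (fun κ' : Icc (4 / 5 : ℝ) (3 / 2) =>
        gronwallBound 0 5 (2 * |(κ' : ℝ) - κ|) t) := by
      have h2 := gronwallBound_continuous_ε 0 5 t
      exact h2.comp (by fun_prop)
    have h3 := h1.tendsto κ
    simpa [gronwallBound_ε0_δ0] using h3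
  exact squeeze_zero (fun _ => dist_nonneg) hb hc

lemma lim_zero {f f' : ℝ → ℝ} {l L : ℝ} (hf : ∀ t, 0 < t → HasDerivAt f (f' t) t)
    (h1 : Tendsto f atTop (𝓝 l)) (h2 : Tendsto f' atTop (𝓝 L)) : L = 0 := by
  have hm : ∀ n : ℕ, ∃ c : ℝ, (n : ℝ) < c ∧ f' c = f (n + 2) - f (n + 1) := by
    intro n
    have hn : (0 : ℝ) ≤ n := Nat.cast_nonneg n
    obtain ⟨c, hc, hc'⟩ := exists_hasDerivAt_eq_slope f f' (a := (n : ℝ) + 1) (b := n + 2)
      (by linarith)
      (fun x hx => (hf x (by linarith [hx.1])).continuousAt.continuousWithinAt)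
      (fun x hx => hf x (by linarith [hx.1]))
    refine ⟨c, by linarith [hc.1], ?_⟩
    rw [hc']
    have : ((n : ℝ) + 2 - (n + 1)) = 1 := by ring
    rw [this, div_one]
  choose c hc hc' using hm
  have hct : Tendsto c atTop atTop :=
    tendsto_atTop_mono (fun n => (hc n).le) tendsto_natCast_atTop_atTop
  have h3 : Tendsto (fun n => f' (c n)) atTop (𝓝 L) := h2.comp hct
  have h4 : Tendsto (fun n : ℕ => f ((n : ℝ) + 2) - f (n + 1)) atTop (𝓝 (l - l)) := by
    have a1 : Tendsto (fun n : ℕ => (n : ℝ) + 2) atTop atTop :=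
      tendsto_atTop_add_const_right _ _ tendsto_natCast_atTop_atTop
    have a2 : Tendsto (fun n : ℕ => (n : ℝ) + 1) atTop atTop :=
      tendsto_atTop_add_const_right _ _ tendsto_natCast_atTop_atTop
    exact (h1.comp a1).sub (h1.comp a2)
  rw [sub_self] at h4
  have h5 : (fun n => f' (c n)) = (fun n : ℕ => f ((n : ℝ) + 2) - f (n + 1)) := funext hc'
  rw [h5] at h3
  exact tendsto_nhds_unique h3 h4

lemma poly {u : ℝ} (h0 : 0 ≤ u) (h1 : u ≤ 2) :
    u * (2 - u) ^ 3 * (1 + 32 / 1000 * u) ^ 2 < 16 / 9 := by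
  have hk : u * (2 - u) ^ 3 ≤ 27 / 16 := by
    have : 27 / 16 - u * (2 - u) ^ 3 = (u - 1 / 2) ^ 2 * ((u - 5 / 2) ^ 2 + 1 / 2) := by ring
    have h2 : 0 ≤ (u - 1 / 2) ^ 2 * ((u - 5 / 2) ^ 2 + 1 / 2) := by positivity
    linarith
  have hp : 0 ≤ u * (2 - u) ^ 3 := mul_nonneg h0 (pow_nonneg (by linarith) 3)
  rcases le_total u (7 / 10) with h | h
  · have h3 : (1 + 32 / 1000 * u) ^ 2 ≤ (1 + 32 / 1000 * (7 / 10)) ^ 2 :=
      pow_le_pow_left₀ (by linarith) (by linarith) 2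
    calc u * (2 - u) ^ 3 * (1 + 32 / 1000 * u) ^ 2
        ≤ 27 / 16 * (1 + 32 / 1000 * (7 / 10)) ^ 2 :=
          mul_le_mul hk h3 (by positivity) (by norm_num)
      _ < 16 / 9 := by norm_num
  · have h3 : (1 + 32 / 1000 * u) ^ 2 ≤ (1 + 32 / 1000 * 2) ^ 2 :=
      pow_le_pow_left₀ (by linarith) (by linarith) 2
    have h4 : u * (2 - u) ^ 3 ≤ 7 / 10 * (13 / 10) ^ 3 := by
      -- `u (2 - u)^3` decreases for `u ≥ 1/2`
      have h6 : 7 / 10 * (13 / 10) ^ 3 - u * (2 - u) ^ 3 =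
          (u - 7 / 10) * (7 / 10 * ((13 / 10) ^ 2 + (13 / 10) * (2 - u) + (2 - u) ^ 2) -
            (2 - u) ^ 3) := by ring
      have h7 : 0 ≤ 7 / 10 * ((13 / 10) ^ 2 + (13 / 10) * (2 - u) + (2 - u) ^ 2) -
            (2 - u) ^ 3 := by
        have h8 : 0 ≤ 2 - u := by linarith
        have h9 : 2 - u ≤ 13 / 10 := by linarith
        have h10 : (2 - u) ^ 3 ≤ (13 / 10) * (2 - u) ^ 2 := by
          have : (2 - u) ^ 3 = (2 - u) * (2 - u) ^ 2 := by ring
          rw [this]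
          exact mul_le_mul_of_nonneg_right h9 (by positivity)
        nlinarith
      have h8 : 0 ≤ (u - 7 / 10) := by linarith
      have := mul_nonneg h8 h7
      linarith
    calc u * (2 - u) ^ 3 * (1 + 32 / 1000 * u) ^ 2
        ≤ 7 / 10 * (13 / 10) ^ 3 * (1 + 32 / 1000 * 2) ^ 2 :=
          mul_le_mul h4 h3 (by positivity) (by norm_num)
      _ < 16 / 9 := by norm_num

lemma no_eq {κ x y : ℝ} (h0 : 0 < κ) (h1 : κ ≤ 3 / 2) (hy : Real.pi / 2 ≤ y) (hy' : y ≤ Real.pi)
    (e0 : 1 - κ * ((2 + Real.cos x + Real.cos y) / 2) * Real.sin x = 0)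
    (e1 : 1 / 4 - κ * ((2 + Real.cos x + Real.cos y) / 2) * Real.sin y = 0) : False := by
  set s := Real.sin x with hs
  set c := Real.cos x with hc
  set q := Real.sin y with hq
  set d := Real.cos y with hd
  have hsc : s ^ 2 + c ^ 2 = 1 := Real.sin_sq_add_cos_sq x
  have hqd : q ^ 2 + d ^ 2 = 1 := Real.sin_sq_add_cos_sq y
  have hc1 : c ≤ 1 := Real.cos_le_one x
  have hc2 : -1 ≤ c := Real.neg_one_le_cos x
  have hd0 : d ≤ 0 := Real.cos_nonpos_of_pi_div_two_le_of_le hy (by linarith [Real.pi_pos])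
  have hd1 : -1 ≤ d := Real.neg_one_le_cos y
  have hM : 0 ≤ (2 + c + d) / 2 := by linarith
  set M := (2 + c + d) / 2 with hMdef
  have hMs : κ * M * s = 1 := by linarith
  have hMq : κ * M * q = 1 / 4 := by linarith
  have hMpos : 0 < κ * M := by
    rcases lt_or_eq_of_le (mul_nonneg h0.le hM) with h | h
    · exact h
    · rw [← h] at hMs; simp at hMs
  have hs0 : 0 < s := by
    by_contra hcon
    push Not at hcon
    nlinarith
  have hqs : q = s / 4 := by
    have : κ * M * (q - s / 4) = 0 := by linear_combination hMq - hMs / 4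
    rcases mul_eq_zero.1 this with h | h
    · exact absurd h hMpos.ne'
    · linarith
  have hs1 : s ^ 2 ≤ 1 := by nlinarith [sq_nonneg c]
  have hd2 : d ≤ -(1 - 32 / 1000 * s ^ 2) := by
    have h2 : d ^ 2 = 1 - s ^ 2 / 16 := by rw [hqs] at hqd; linarith
    have h3 : (1 - 32 / 1000 * s ^ 2) ^ 2 ≤ (-d) ^ 2 := by
      have : (-d) ^ 2 = 1 - s ^ 2 / 16 := by rw [neg_sq, h2]
      rw [this]
      nlinarith [sq_nonneg s]
    have h4 : 1 - 32 / 1000 * s ^ 2 ≤ -d := by
      have := abs_le_of_sq_le_sq' h3 (by linarith)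
      exact this.2
    linarith
  have hs2 : 4 / 3 ≤ s * (2 + c + d) := by
    have h2 : κ * (M * s) = 1 := by rw [← mul_assoc]; exact hMs
    have h3 : 0 ≤ M * s := mul_nonneg hM hs0.le
    have h4 : M * s = s * (2 + c + d) / 2 := by rw [hMdef]; ring
    nlinarith
  have h5 : s * (2 + c + d) ≤ s * ((2 - (1 - c)) * (1 + 32 / 1000 * (1 - c))) := by
    refine mul_le_mul_of_nonneg_left ?_ hs0.le
    have h6 : s ^ 2 = (1 - c) * (2 - (1 - c)) := by linear_combination hsc
    rw [h6] at hd2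
    linarith
  have h7 : (4 / 3 : ℝ) ^ 2 ≤ (s * ((2 - (1 - c)) * (1 + 32 / 1000 * (1 - c)))) ^ 2 :=
    pow_le_pow_left₀ (by norm_num) (hs2.trans h5) 2
  have h8 : (s * ((2 - (1 - c)) * (1 + 32 / 1000 * (1 - c)))) ^ 2 =
      (1 - c) * (2 - (1 - c)) ^ 3 * (1 + 32 / 1000 * (1 - c)) ^ 2 := by
    have h6 : s ^ 2 = (1 - c) * (2 - (1 - c)) := by linear_combination hsc
    rw [mul_pow, h6]
    ring
  rw [h8] at h7
  have h9 := poly (u := 1 - c) (by linarith) (by linarith)
  norm_num at h7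
  linarith

section sol

variable {κ : ℝ} {Θ₀ : Fin 2 → ℝ} {θ : ℝ → Fin 2 → ℝ}

lemma der0 (h : IsSolution 2 Om κ Θ₀ θ) {t : ℝ} (ht : 0 < t) :
    HasDerivAt (fun s => θ s 0) (1 - κ * R (θ t) * Real.sin (θ t 0)) t := by
  have h1 := (hasDerivWithinAt_pi.1 (h.2 t ht.le)) 0
  rw [field0] at h1
  exact h1.hasDerivAt (Ici_mem_nhds ht)

lemma der1 (h : IsSolution 2 Om κ Θ₀ θ) {t : ℝ} (ht : 0 < t) :
    HasDerivAt (fun s => θ s 1) (1 / 4 - κ * R (θ t) * Real.sin (θ t 1)) t := by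
  have h1 := (hasDerivWithinAt_pi.1 (h.2 t ht.le)) 1
  rw [field1] at h1
  exact h1.hasDerivAt (Ici_mem_nhds ht)

lemma cont (h : IsSolution 2 Om κ Θ₀ θ) : ContinuousOn θ (Ici 0) :=
  fun t ht => (h.2 t ht).continuousWithinAt

lemma conti (h : IsSolution 2 Om κ Θ₀ θ) (i : Fin 2) : ContinuousOn (fun s => θ s i) (Ici 0) :=
  (continuous_apply i).comp_continuousOn (cont h)

/-- Above `π` for ever. -/
lemma above (h : IsSolution 2 Om κ Θ₀ θ) {a : ℝ} (ha : 0 ≤ a) (hpi : Real.pi < θ a 1) :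
    ∀ t, a ≤ t → Real.pi ≤ θ t 1 := by
  intro t ht
  have := stay (ι := Unit) (fun _ s => Real.pi - θ s 1) a
    (fun _ => continuousOn_const.sub ((conti h 1).mono (Ici_subset_Ici.2 ha)))
    (fun _ => by simpa using hpi) ?_ t ht ()
  · simpa using this
  · intro s hs _ _ h0
    have e : θ s 1 = Real.pi := by linarith
    refine ⟨-(1 / 4), by norm_num, ?_⟩
    have h1 := (der1 h (ha.trans_lt hs)).const_sub Real.pi
    rw [e, Real.sin_pi] at h1
    simpa using h1

/-- Below `π / 2` for ever. -/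
lemma below (hκ : 4 / 5 ≤ κ) (h : IsSolution 2 Om κ Θ₀ θ) {a : ℝ} (ha : 0 ≤ a)
    (hpi : θ a 1 < Real.pi / 2) :
    ∀ t, a ≤ t → θ t 1 ≤ Real.pi / 2 := by
  intro t ht
  have := stay (ι := Unit) (fun _ s => θ s 1 - Real.pi / 2) a
    (fun _ => ((conti h 1).mono (Ici_subset_Ici.2 ha)).sub continuousOn_const)
    (fun _ => by simpa using hpi) ?_ t ht ()
  · simpa using this
  · intro s hs _ _ h0
    have e : θ s 1 = Real.pi / 2 := by linarith
    refine ⟨1 / 4 - κ * R (θ s) * Real.sin (θ s 1), ?_, (der1 h (ha.trans_lt hs)).sub_const _⟩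
    rw [e, Real.sin_pi_div_two]
    have h2 : 1 / 2 ≤ R (θ s) := by
      unfold R
      rw [e, Real.cos_pi_div_two]
      have := Real.neg_one_le_cos (θ s 0)
      linarith
    nlinarith

/-- Linear growth. -/
lemma grow {f f' : ℝ → ℝ} {c : ℝ} (hf : ContinuousOn f (Ici 0))
    (hf' : ∀ t, 0 < t → HasDerivAt f (f' t) t) (hc : ∀ t, 0 < t → c ≤ f' t) (t : ℝ) (ht : 0 ≤ t) :
    f 0 + c * t ≤ f t := by
  have := (convex_Ici (0 : ℝ)).mul_sub_le_image_sub_of_le_deriv hf
    (fun x hx => ((hf' x (by simpa using hx)).differentiableAt.differentiableWithinAt))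
    (C := c) (fun x hx => by
      have hx' : 0 < x := by simpa using hx
      rw [(hf' x hx').deriv]
      exact hc x hx') 0 (by simp) t ht ht
  linarith

/-- The set of initial phases. -/
def U : Set (Fin 2 → ℝ) := {v | 0 < v 0 ∧ v 0 < Real.pi / 3 ∧
  Real.pi - Real.arcsin (29 / 100) < v 1 ∧ v 1 < Real.pi - Real.arcsin (28 / 100)}

lemma sin28 : Real.sin (Real.arcsin (28 / 100)) = 28 / 100 :=
  Real.sin_arcsin (by norm_num) (by norm_num)

lemma sin29 : Real.sin (Real.arcsin (29 / 100)) = 29 / 100 :=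
  Real.sin_arcsin (by norm_num) (by norm_num)

lemma cos28 : Real.cos (Real.arcsin (28 / 100)) = 24 / 25 := by
  rw [Real.cos_arcsin, show (1 : ℝ) - (28 / 100) ^ 2 = (24 / 25) ^ 2 by norm_num]
  exact Real.sqrt_sq (by norm_num)

lemma cos29 : 19 / 20 ≤ Real.cos (Real.arcsin (29 / 100)) := by
  rw [Real.cos_arcsin]
  exact Real.le_sqrt_of_sq_le (by norm_num)

lemma arc28_pos : 0 < Real.arcsin (28 / 100) := Real.arcsin_pos.2 (by norm_num)
lemma arc29_pos : 0 < Real.arcsin (29 / 100) := Real.arcsin_pos.2 (by norm_num)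
lemma arc28_lt : Real.arcsin (28 / 100) < Real.pi / 2 := Real.arcsin_lt_pi_div_two.2 (by norm_num)
lemma arc29_lt : Real.arcsin (29 / 100) < Real.pi / 2 := Real.arcsin_lt_pi_div_two.2 (by norm_num)

/-- `κ = 4/5` : the second phase exceeds `π`. -/
lemma up (h : IsSolution 2 Om (4 / 5) Θ₀ θ) (hU : Θ₀ ∈ U) : ∃ t, 0 ≤ t ∧ Real.pi < θ t 1 := by
  by_contra hcon
  push Not at hcon
  obtain ⟨-, -, h3, -⟩ := hU
  have key : ∀ s, 0 ≤ s → Real.pi - Real.arcsin (29 / 100) ≤ θ s 1 → 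
      1 / 4 - 4 / 5 * (103 / 100) * (29 / 100) ≤ 1 / 4 - 4 / 5 * R (θ s) * Real.sin (θ s 1) := by
    intro s hs h1
    have h2 := hcon s hs
    have e1 : Real.sin (θ s 1) ≤ 29 / 100 := by
      rw [← Real.sin_pi_sub, ← sin29]
      exact Real.sin_le_sin_of_le_of_le_pi_div_two (by linarith [Real.pi_pos]) arc29_lt.le
        (by linarith)
    have e0 : 0 ≤ Real.sin (θ s 1) := 
      Real.sin_nonneg_of_nonneg_of_le_pi (by linarith [arc29_lt]) h2
    have e2 : Real.cos (θ s 1) ≤ - (19 / 20) := by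
      have : Real.cos (Real.arcsin (29 / 100)) ≤ Real.cos (Real.pi - θ s 1) :=
        Real.cos_le_cos_of_nonneg_of_le_pi (by linarith) (by linarith [arc29_lt, Real.pi_pos])
          (by linarith)
      rw [Real.cos_pi_sub] at this
      linarith [cos29]
    have e3 : R (θ s) ≤ 103 / 100 := by
      unfold R
      have := Real.cos_le_one (θ s 0)
      linarith
    have e4 : R (θ s) * Real.sin (θ s 1) ≤ 103 / 100 * (29 / 100) :=
      mul_le_mul e3 e1 e0 (by norm_num)
    nlinarith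
  have low : ∀ t, 0 ≤ t → Real.pi - Real.arcsin (29 / 100) ≤ θ t 1 := by
    intro t ht
    have := stay (ι := Unit) (fun _ s => Real.pi - Real.arcsin (29 / 100) - θ s 1) 0
      (fun _ => continuousOn_const.sub (conti h 1))
      (fun _ => by simp only [h.1]; linarith) ?_ t ht ()
    · simpa using this
    · intro s hs _ _ h0
      refine ⟨-(1 / 4 - 4 / 5 * R (θ s) * Real.sin (θ s 1)), ?_, (der1 h hs).const_sub _⟩
      have := key s hs.le (by linarith)
      linarith
  have hg := fun t => grow (conti h 1) (fun t ht => der1 h ht)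
    (c := 1 / 4 - 4 / 5 * (103 / 100) * (29 / 100)) (fun t ht => key t ht.le (low t ht.le)) t
  have h5 := hg 1000 (by norm_num)
  have h6 := hcon 1000 (by norm_num)
  have h7 := low 0 le_rfl
  have h8 := arc29_lt
  have h9 := Real.pi_lt_four
  have h10 := Real.pi_pos
  norm_num at h5
  linarith

/-- `κ = 3/2` : the second phase falls below `π / 2`. -/
lemma down (h : IsSolution 2 Om (3 / 2) Θ₀ θ) (hU : Θ₀ ∈ U) :
    ∃ t, 0 ≤ t ∧ θ t 1 < Real.pi / 2 := by
  by_contra hcon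
  push Not at hcon
  obtain ⟨h1, h2, -, h4⟩ := hU
  have hpp := Real.pi_pos
  -- the estimates in the region
  have hs1 : ∀ s, 0 ≤ s → θ s 1 ≤ Real.pi - Real.arcsin (28 / 100) → 
      28 / 100 ≤ Real.sin (θ s 1) ∧ -(24 / 25) ≤ Real.cos (θ s 1) := by
    intro s hs h5
    have h6 := hcon s hs
    constructor
    · rw [← Real.sin_pi_sub, ← sin28]
      exact Real.sin_le_sin_of_le_of_le_pi_div_two (by linarith [arc28_pos]) (by linarith)
        (by linarith)
    · have : Real.cos (Real.pi - θ s 1) ≤ Real.cos (Real.arcsin (28 / 100)) :=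
        Real.cos_le_cos_of_nonneg_of_le_pi arc28_pos.le (by linarith) (by linarith)
      rw [Real.cos_pi_sub, cos28] at this
      linarith
  have hc1 : ∀ s, 0 ≤ θ s 0 → θ s 0 ≤ Real.pi / 3 → 1 / 2 ≤ Real.cos (θ s 0) := by
    intro s h5 h6
    rw [← Real.cos_pi_div_three]
    exact Real.cos_le_cos_of_nonneg_of_le_pi h5 (by linarith) h6
  have key : ∀ s, 0 ≤ s → 0 ≤ θ s 0 → θ s 0 ≤ Real.pi / 3 → 
      θ s 1 ≤ Real.pi - Real.arcsin (28 / 100) → 
      1 / 4 - 3 / 2 * R (θ s) * Real.sin (θ s 1) ≤ 1 / 4 - 3 / 2 * (77 / 100) * (28 / 100) := by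
    intro s hs h5 h6 h7
    obtain ⟨h8, h9⟩ := hs1 s hs h7
    have h10 := hc1 s h5 h6
    have h11 : 77 / 100 ≤ R (θ s) := by
      unfold R
      linarith
    have : 77 / 100 * (28 / 100) ≤ R (θ s) * Real.sin (θ s 1) :=
      mul_le_mul h11 h8 (by norm_num) (by linarith)
    nlinarith
  have reg := stay (ι := Fin 3) (fun k s => ![- θ s 0, θ s 0 - Real.pi / 3,
      θ s 1 - (Real.pi - Real.arcsin (28 / 100))] k) 0 ?_ ?_ ?_
  · have hr : ∀ t, 0 ≤ t → 0 ≤ θ t 0 ∧ θ t 0 ≤ Real.pi / 3 ∧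
        θ t 1 ≤ Real.pi - Real.arcsin (28 / 100) := by
      intro t ht
      have a0 := reg t ht 0
      have a1 := reg t ht 1
      have a2 := reg t ht 2
      simp at a0 a1 a2
      exact ⟨by linarith, by linarith, by linarith⟩
    have hg := fun t => grow (f := fun s => - θ s 1) (conti h 1).neg
      (fun t ht => (der1 h ht).neg)
      (c := -(1 / 4 - 3 / 2 * (77 / 100) * (28 / 100))) (fun t ht => by
        obtain ⟨b0, b1, b2⟩ := hr t ht.le
        have := key t ht.le b0 b1 b2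
        linarith) t
    have h5 := hg 1000 (by norm_num)
    have h6 := hcon 1000 (by norm_num)
    obtain ⟨-, -, h7⟩ := hr 0 le_rfl
    have h8 := arc28_pos
    have h9 := Real.pi_lt_four
    norm_num at h5
    linarith
  · intro k
    fin_cases k
    · exact (conti h 0).neg
    · exact (conti h 0).sub continuousOn_const
    · exact (conti h 1).sub continuousOn_const
  · intro k
    fin_cases k
    · simpa [h.1] using h1
    · simpa [h.1] using h2
    · simp [h.1]; linarith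
  · intro s hs hall k hk
    have a0 := hall 0
    have a1 := hall 1
    have a2 := hall 2
    simp at a0 a1 a2
    have b0 : 0 ≤ θ s 0 := a0
    have b1 : θ s 0 ≤ Real.pi / 3 := by linarith
    have b2 : θ s 1 ≤ Real.pi - Real.arcsin (28 / 100) := by linarith
    fin_cases k
    · simp at hk
      refine ⟨-(1 - 3 / 2 * R (θ s) * Real.sin (θ s 0)), ?_, (der0 h hs).neg⟩
      rw [hk]; simp
    · simp at hk
      refine ⟨(1 - 3 / 2 * R (θ s) * Real.sin (θ s 0)), ?_, (der0 h hs).sub_const _⟩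
      have e : θ s 0 = Real.pi / 3 := by linarith
      obtain ⟨-, h9⟩ := hs1 s hs.le b2
      have h11 : 77 / 100 ≤ R (θ s) := by
        unfold R
        rw [e, Real.cos_pi_div_three]
        linarith
      rw [e, Real.sin_pi_div_three]
      have h3 : (1.7320 : ℝ) < √3 := by
        apply Real.lt_sqrt_of_sq_lt; norm_num
      nlinarith
    · refine ⟨1 / 4 - 3 / 2 * R (θ s) * Real.sin (θ s 1), ?_, (der1 h hs).sub_const _⟩
      have := key s hs.le b0 b1 b2
      norm_num at this ⊢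
      linarith

end sol

/-- For `κ > 7/10` there is an equilibrium. -/
lemma equil {κ : ℝ} (hκ : 7 / 10 < κ) : HasEquilibrium 2 Om κ := by
  set G : ℝ → ℝ := fun x => κ * ((2 + √(1 - (1 / x) ^ 2) + √(1 - (1 / (4 * x)) ^ 2)) / 2) - x
    with hG
  have hcont : ContinuousOn G (Icc 1 (2 * κ + 1)) := by
    intro x hx
    have hx0 : x ≠ 0 := by linarith [hx.1]
    have hx1 : 4 * x ≠ 0 := by simpa using hx0
    apply ContinuousAt.continuousWithinAt
    simp only [hG]
    fun_prop (disch := assumption)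
  have h1 : 0 ≤ G 1 := by
    simp only [hG]
    have : (24 / 25 : ℝ) ≤ √(1 - (1 / (4 * 1)) ^ 2) := Real.le_sqrt_of_sq_le (by norm_num)
    have h2 : 0 ≤ √(1 - (1 / (1 : ℝ)) ^ 2) := Real.sqrt_nonneg _
    nlinarith
  have h2 : G (2 * κ + 1) ≤ 0 := by
    simp only [hG]
    have a1 : √(1 - (1 / (2 * κ + 1)) ^ 2) ≤ 1 := Real.sqrt_le_one.2 (by
      have := sq_nonneg (1 / (2 * κ + 1)); linarith)
    have a2 : √(1 - (1 / (4 * (2 * κ + 1))) ^ 2) ≤ 1 := Real.sqrt_le_one.2 (by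
      have := sq_nonneg (1 / (4 * (2 * κ + 1))); linarith)
    nlinarith
  obtain ⟨x, hx, hx0⟩ := intermediate_value_Icc' (by linarith) hcont ⟨h2, h1⟩
  have hxp : 0 < x := by linarith [hx.1]
  have hx' : x ≠ 0 := hxp.ne'
  have b1 : 1 / x ≤ 1 := by rw [div_le_one hxp]; exact hx.1
  have b2 : 1 / (4 * x) ≤ 1 := by rw [div_le_one (by linarith)]; linarith [hx.1]
  have b3 : 0 < 1 / x := by positivity
  have b4 : 0 < 1 / (4 * x) := by positivity
  refine ⟨![Real.arcsin (1 / x), Real.arcsin (1 / (4 * x))], fun i => ?_⟩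
  have hR : κ * R ![Real.arcsin (1 / x), Real.arcsin (1 / (4 * x))] = x := by
    simp only [R, Matrix.cons_val_zero, Matrix.cons_val_one, Matrix.cons_val_fin_one,
      Real.cos_arcsin]
    simp only [hG] at hx0
    linarith
  fin_cases i
  · change field 2 Om κ _ 0 = 0
    rw [field0, hR]
    simp only [Matrix.cons_val_zero]
    rw [Real.sin_arcsin (by linarith) b1]
    field_simp
    norm_num
  · change field 2 Om κ _ 1 = 0
    rw [field1, hR]
    simp only [Matrix.cons_val_one, Matrix.cons_val_fin_one]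
    rw [Real.sin_arcsin (by linarith) b2]
    field_simp
    norm_num

lemma kappaC_le : kappaC 2 Om ≤ ((7 / 10 : ℝ) : EReal) :=
  sInf_le ⟨7 / 10, ⟨by norm_num, fun _ hκ => equil hκ⟩, rfl⟩

/-- For each `Θ₀ ∈ U` the solution does not converge for some `κ ∈ [4/5, 3/2]`. -/
lemma not_conv {Θ₀ : Fin 2 → ℝ} (hU : Θ₀ ∈ U) :
    ∃ κ : ℝ, 4 / 5 ≤ κ ∧ κ ≤ 3 / 2 ∧ ¬ Converges 2 Om κ Θ₀ := by
  by_contra hcon
  push Not at hcon
  have hc : ∀ κ : Icc (4 / 5 : ℝ) (3 / 2), Converges 2 Om κ Θ₀ := fun κ => hcon κ κ.2.1 κ.2.2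
  choose θ hθ hlim using hc
  have hpp := Real.pi_pos
  -- the two sets of couplings
  set A : Set (Icc (4 / 5 : ℝ) (3 / 2)) := {κ | ∃ t, 0 ≤ t ∧ Real.pi < θ κ t 1} with hA
  set B : Set (Icc (4 / 5 : ℝ) (3 / 2)) := {κ | ∃ t, 0 ≤ t ∧ θ κ t 1 < Real.pi / 2} with hB
  have hAo : IsOpen A := by
    have : A = ⋃ t ∈ Ici (0 : ℝ), (fun κ => θ κ t 1) ⁻¹' Ioi Real.pi := by
      ext κ; simp [hA]
    rw [this]
    exact isOpen_biUnion fun t ht =>
      isOpen_Ioi.preimage ((continuous_apply 1).comp (contk θ hθ t ht))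
  have hBo : IsOpen B := by
    have : B = ⋃ t ∈ Ici (0 : ℝ), (fun κ => θ κ t 1) ⁻¹' Iio (Real.pi / 2) := by
      ext κ; simp [hB]
    rw [this]
    exact isOpen_biUnion fun t ht =>
      isOpen_Iio.preimage ((continuous_apply 1).comp (contk θ hθ t ht))
  have hAn : A.Nonempty := ⟨⟨4 / 5, by norm_num, by norm_num⟩, up (hθ _) hU⟩
  have hBn : B.Nonempty := ⟨⟨3 / 2, by norm_num, by norm_num⟩, down (hθ _) hU⟩
  have hdisj : ¬ (A ∩ B).Nonempty := by
    rintro ⟨κ, ⟨t, ht, ht'⟩, ⟨s, hs, hs'⟩⟩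
    have h1 := above (hθ κ) ht ht' (max s t) (le_max_right _ _)
    have h2 := below κ.2.1 (hθ κ) hs hs' (max s t) (le_max_left _ _)
    linarith
  have : PreconnectedSpace (Icc (4 / 5 : ℝ) (3 / 2)) :=
    Subtype.preconnectedSpace isPreconnected_Icc
  have hne : A ∪ B ≠ univ := fun hun => hdisj (nonempty_inter hAo hBo hun hAn hBn)
  obtain ⟨κ, hκ⟩ := (ne_univ_iff_exists_notMem _).1 hne
  have hκA : ∀ t, 0 ≤ t → θ κ t 1 ≤ Real.pi := by
    intro t ht
    by_contra h
    exact hκ (Or.inl ⟨t, ht, not_le.1 h⟩)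
  have hκB : ∀ t, 0 ≤ t → Real.pi / 2 ≤ θ κ t 1 := by
    intro t ht
    by_contra h
    exact hκ (Or.inr ⟨t, ht, not_le.1 h⟩)
  obtain ⟨x, hx⟩ := hlim κ 0
  obtain ⟨y, hy⟩ := hlim κ 1
  have hy1 : y ≤ Real.pi := le_of_tendsto hy ((eventually_ge_atTop 0).mono hκA)
  have hy2 : Real.pi / 2 ≤ y := ge_of_tendsto hy ((eventually_ge_atTop 0).mono hκB)
  have hcosx := (Real.continuous_cos.tendsto x).comp hx
  have hcosy := (Real.continuous_cos.tendsto y).comp hy
  have hsinx := (Real.continuous_sin.tendsto x).comp hx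
  have hsiny := (Real.continuous_sin.tendsto y).comp hy
  have hR : Tendsto (fun t => (κ : ℝ) * R (θ κ t)) atTop
      (𝓝 (κ * ((2 + Real.cos x + Real.cos y) / 2))) :=
    (((tendsto_const_nhds.add hcosx).add hcosy).div_const 2).const_mul _
  have e0 := lim_zero (fun t ht => der0 (hθ κ) ht) hx
    (tendsto_const_nhds.sub (hR.mul hsinx))
  have e1 := lim_zero (fun t ht => der1 (hθ κ) ht) hy
    (tendsto_const_nhds.sub (hR.mul hsiny))
  exact no_eq (by linarith [κ.2.1]) κ.2.2 hy2 hy1 e0 e1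

lemma le_kappaPC {Θ₀ : Fin 2 → ℝ} (hU : Θ₀ ∈ U) : ((4 / 5 : ℝ) : EReal) ≤ kappaPC 2 Θ₀ Om := by
  refine le_sInf ?_
  rintro _ ⟨k, ⟨-, hk⟩, rfl⟩
  obtain ⟨κ, h1, -, h3⟩ := not_conv hU
  have : 4 / 5 ≤ k := by
    by_contra hcon
    exact h3 (hk κ (by linarith))
  exact EReal.coe_le_coe_iff.2 this

lemma U_open : IsOpen U := by
  have h0 : Continuous fun v : Fin 2 → ℝ => v 0 := continuous_apply 0
  have h1 : Continuous fun v : Fin 2 → ℝ => v 1 := continuous_apply 1
  exact (isOpen_lt continuous_const h0).inter ((isOpen_lt h0 continuous_const).inter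
    ((isOpen_lt continuous_const h1).inter (isOpen_lt h1 continuous_const)))

lemma U_nonempty : U.Nonempty := by
  have h1 : Real.arcsin (28 / 100) < Real.arcsin (29 / 100) :=
    Real.strictMonoOn_arcsin ⟨by norm_num, by norm_num⟩ ⟨by norm_num, by norm_num⟩ (by norm_num)
  refine ⟨![Real.pi / 4, Real.pi - (Real.arcsin (28 / 100) + Real.arcsin (29 / 100)) / 2], ?_⟩
  have hpp := Real.pi_pos
  simp only [U, mem_ofPred_eq, Matrix.cons_val_zero, Matrix.cons_val_one, Matrix.cons_val_fin_one]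
  refine ⟨by linarith, by linarith, by linarith, by linarith⟩

/-- **The weak form (Q1), and with it the strong form (Q2), is false.** -/
theorem result :
    -- Q1 fails
    (¬ ∀ N : ℕ, 1 ≤ N → ∀ Ω : Fin N → ℝ, ∀ᵐ Θ₀ : Fin N → ℝ, kappaC N Ω = kappaPC N Θ₀ Ω) ∧
    -- more precisely, for `N = 2` and `Ω = (1, 1/4)`
    kappaC 2 ![1, 1 / 4] ≤ ((7 / 10 : ℝ) : EReal) ∧
    (∃ U : Set (Fin 2 → ℝ), IsOpen U ∧ U.Nonempty ∧
      ∀ Θ₀ ∈ U, ((4 / 5 : ℝ) : EReal) ≤ kappaPC 2 Θ₀ ![1, 1 / 4]) ∧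
    0 < volume {Θ₀ : Fin 2 → ℝ | kappaPC 2 Θ₀ ![1, 1 / 4] ≠ kappaC 2 ![1, 1 / 4]} := by
  have hlt : ((7 / 10 : ℝ) : EReal) < ((4 / 5 : ℝ) : EReal) :=
    EReal.coe_lt_coe_iff.2 (by norm_num)
  have hpos : 0 < volume {Θ₀ : Fin 2 → ℝ | kappaPC 2 Θ₀ Om ≠ kappaC 2 Om} := by
    refine (U_open.measure_pos volume U_nonempty).trans_le (measure_mono fun Θ₀ hU => ?_)
    exact ((kappaC_le.trans_lt hlt).trans_le (le_kappaPC hU)).ne'
  refine ⟨fun h => ?_, kappaC_le, ⟨U, U_open, U_nonempty, fun Θ₀ hU => le_kappaPC hU⟩, hpos⟩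
  have h1 := h 2 (by norm_num) Om
  rw [ae_iff] at h1
  refine hpos.ne' ?_
  rw [← h1]
  congr 1
  ext Θ₀
  simp only [mem_ofPred_eq]
  exact ⟨fun a b => a b.symm, fun a b => a b.symm⟩

end Pool.Agent.Results.MP_4423d6_an.WeakFormFails
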